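import Pool.Agent.H922IN.Gin

/-!
# One field automorphism and one prime: congruences decide the McKay–Galois statement
-/

set_option autoImplicit false

noncomputable section

namespace Pool.Agent.Results.MP_1ae3da_al.OneAutomorphism

/-- `χ` is the character of an irreducible complex representation of `G`. -/
def IsIrr {G : Type} [Group G] (χ : G → ℂ) : Prop :=
  ∃ (V : Type) (_ : AddCommGroup V) (_ : Module ℂ V) (_ : FiniteDimensional ℂ V)
    (ρ : Representation ℂ G V), ρ.IsIrreducible ∧ χ = ρ.character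

/-- The normaliser of a Sylow subgroup. -/
abbrev Nor {p : ℕ} {G : Type} [Group G] (P : Sylow p G) : Subgroup G :=
  Subgroup.normalizer ((P : Subgroup G) : Set G)

/-- The irreducible characters of `G` of degree prime to `p`. -/
def IrrP (p : ℕ) (G : Type) [Group G] : Type :=
  {χ : G → ℂ // IsIrr χ ∧ ∃ n : ℕ, χ 1 = n ∧ ¬ p ∣ n}

/-- There is a bijection from the irreducible characters of `G` of degree prime to `p` onto those of
the normaliser of `P` which commutes with the action of the group generated by `σ`. -/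
def Equivariant {p : ℕ} {G : Type} [Group G] (σ : ℂ ≃+* ℂ) (P : Sylow p G) : Prop :=
  ∃ f : IrrP p G ≃ IrrP p (Nor P), ∀ τ ∈ Subgroup.zpowers σ, ∀ χ ψ : IrrP p G,
    (∀ g, ψ.1 g = τ (χ.1 g)) → ∀ g, (f ψ).1 g = τ ((f χ).1 g)

/-- The Galois conjugates of a complex function. -/
def conjugates {G : Type} (χ : G → ℂ) : Set (G → ℂ) :=
  {ψ | ∃ σ : ℂ ≃+* ℂ, ψ = fun g => σ (χ g)}

/-- The number of irreducible characters `χ` of `G` of degree prime to `p` with `σ(χ) = χ`. -/
def fixed (p : ℕ) (σ : ℂ ≃+* ℂ) (G : Type) [Group G] : ℕ :=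
  Nat.card {χ : G → ℂ // IsIrr χ ∧ (∃ n : ℕ, χ 1 = n ∧ ¬ p ∣ n) ∧ (fun g => σ (χ g)) = χ}

/-- The number of irreducible characters `χ` of `G` of degree prime to `p` with `σ(χ) = χ` for which
the number of Galois conjugates, that is, the degree of the field of values, is not divisible by
`ℓ`. -/
def num (p ℓ : ℕ) (σ : ℂ ≃+* ℂ) (G : Type) [Group G] : ℕ :=
  Nat.card {χ : G → ℂ // IsIrr χ ∧ ((∃ n : ℕ, χ 1 = n ∧ ¬ p ∣ n) ∧ (fun g => σ (χ g)) = χ) ∧
    ¬ ℓ ∣ Nat.card (conjugates χ)}

/-- For all finite groups `G` and all Sylow `p`-subgroups `P`, the numbers `num` for `G` and for the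
normaliser of `P` are congruent modulo `ℓ`. -/
def Congruence (p ℓ : ℕ) (σ : ℂ ≃+* ℂ) : Prop :=
  ∀ (G : Type) [Group G] [Finite G] (P : Sylow p G), num p ℓ σ G ≡ num p ℓ σ (Nor P) [MOD ℓ]

/-- For every `n`, the permutation of the `n`-th roots of unity induced by `σ` has order prime to
`ℓ`. -/
def PrimeOrder (ℓ : ℕ) (σ : ℂ ≃+* ℂ) : Prop :=
  ∀ n : ℕ, 0 < n → ∃ m : ℕ, ¬ ℓ ∣ m ∧ ∀ z : ℂ, z ^ n = 1 → (σ ^ m) z = z

/-- Let `p` and `ℓ` be different primes and `σ` a field automorphism which acts on the roots of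
unity with order prime to `ℓ`; for example, let `σ` fix all roots of unity of order prime to `p` and
let `ℓ` not divide `p - 1`. (1) If `Congruence p ℓ σ` holds, then for all finite groups `G`, all
Sylow `p`-subgroups `P` and all `d` prime to `p`, the power `σ ^ d` fixes as many irreducible
characters of degree prime to `p` of `G` as of the normaliser of `P`. (2) For all `G` and `P` there
is a bijection which commutes with the group generated by `σ` if and only if
`Congruence p ℓ (σ ^ p ^ k)` holds for all `k ≥ 0`. (3) If `σ` also acts with order prime to `p`,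
then the case `k = 0` suffices. -/
theorem result (p ℓ : ℕ) [Fact p.Prime] [Fact ℓ.Prime] (hne : ℓ ≠ p) (σ : ℂ ≃+* ℂ)
    (hσ : PrimeOrder ℓ σ ∨
      (¬ ℓ ∣ p - 1 ∧ ∀ (n : ℕ) (z : ℂ), ¬ p ∣ n → z ^ n = 1 → σ z = z)) :
    (Congruence p ℓ σ → ∀ d : ℕ, ¬ p ∣ d → ∀ (G : Type) [Group G] [Finite G] (P : Sylow p G),
      fixed p (σ ^ d) G = fixed p (σ ^ d) (Nor P)) ∧
    ((∀ (G : Type) [Group G] [Finite G] (P : Sylow p G), Equivariant σ P) ↔
      ∀ k : ℕ, Congruence p ℓ (σ ^ p ^ k)) ∧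
    (PrimeOrder p σ →
      ((∀ (G : Type) [Group G] [Finite G] (P : Sylow p G), Equivariant σ P) ↔
        Congruence p ℓ σ)) := by
  have hσ' : Pool.Agent.H922IN.PrimeOrder ℓ σ := by
    rcases hσ with h | ⟨h1, h2⟩
    · exact h
    · exact Pool.Agent.H922IN.inertia hne.symm h1 h2
  have e1 : ∀ {G : Type} (τ : ℂ ≃+* ℂ) (χ : G → ℂ),
      Pool.Agent.H922IN.Fx {τ} χ ↔ (fun g => τ (χ g)) = χ := fun τ χ =>
    ⟨fun h => h τ rfl, fun h τ' hτ' => by rw [Set.mem_singleton_iff.mp hτ']; exact h⟩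
  have e2 : ∀ (τ : ℂ ≃+* ℂ) (G : Type) [Group G],
      Pool.Agent.H922IN.nS p {τ} G = fixed p τ G := by
    intro τ G _
    exact Nat.card_congr (Equiv.subtypeEquivRight fun χ => by rw [e1]; exact Iff.rfl)
  have e3 : ∀ (τ : ℂ ≃+* ℂ) (G : Type) [Group G],
      Pool.Agent.H922IN.kS p ℓ {τ} G = num p ℓ τ G := by
    intro τ G _
    exact Nat.card_congr (Equiv.subtypeEquivRight fun χ => by rw [e1]; exact Iff.rfl)
  have e4 : ∀ τ : ℂ ≃+* ℂ, (∀ (G : Type) [Group G] [Finite G] (P : Sylow p G),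
      Pool.Agent.H922IN.kS p ℓ {τ} G ≡ Pool.Agent.H922IN.kS p ℓ {τ}
        (Pool.Agent.H922IN.nrm P) [MOD ℓ]) ↔ Congruence p ℓ τ := by
    intro τ
    constructor
    · intro h G _ _ P
      have := h G P
      rw [e3, e3] at this
      exact this
    · intro h G _ _ P
      rw [e3, e3]
      exact h G P
  have e5 : (∀ (G : Type) [Group G] [Finite G] (P : Sylow p G), Equivariant σ P) ↔
      ∀ (G : Type) [Group G] [Finite G] (P : Sylow p G),
        Pool.Agent.H922IN.EqB (Subgroup.zpowers σ) P := by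
    refine forall_congr' fun G => forall_congr' fun _ => forall_congr' fun _ =>
      forall_congr' fun P => ?_
    constructor
    · rintro ⟨f, hf⟩
      exact ⟨f, fun τ hτ χ => Subtype.ext (funext (hf τ hτ χ (Pool.Agent.H922IN.act τ χ)
        fun _ => rfl))⟩
    · rintro ⟨f, hf⟩
      refine ⟨f, fun τ hτ χ ψ h g => ?_⟩
      have h1 : ψ = Pool.Agent.H922IN.act τ χ := Subtype.ext (funext h)
      have h2 := hf τ hτ χ
      rw [h1]
      exact congrFun (congrArg Subtype.val h2) g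
  refine ⟨fun h d hd G _ _ P => ?_, ?_, fun h => ?_⟩
  · have h1 := Pool.Agent.H922IN.one_aut hne.symm hσ' ((e4 σ).mpr h) d hd G P
    rw [e2, e2] at h1
    exact h1
  · rw [e5, Pool.Agent.H922IN.cyc_iff hne.symm hσ']
    exact forall_congr' fun k => e4 _
  · rw [e5, Pool.Agent.H922IN.cyc_prime hne.symm hσ' h]
    exact e4 σ

end Pool.Agent.Results.MP_1ae3da_al.OneAutomorphism
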