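import Pool.Agent.H922IN.Gfin

/-!
# The McKay–Galois statement for one group and congruences for iterated wreath products
-/

set_option autoImplicit false

noncomputable section

namespace Pool.Agent.Results.MP_1ae3da_al.TowerCongruences

open Pool.Agent.H922IN (WN)

/-- `χ` is the character of an irreducible complex representation of `G`. -/
def IsIrr {G : Type} [Group G] (χ : G → ℂ) : Prop :=
  ∃ (V : Type) (_ : AddCommGroup V) (_ : Module ℂ V) (_ : FiniteDimensional ℂ V)
    (ρ : Representation ℂ G V), ρ.IsIrreducible ∧ χ = ρ.character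

/-- The normaliser of a Sylow subgroup. -/
abbrev Nor {p : ℕ} {G : Type} [Group G] (P : Sylow p G) : Subgroup G :=
  Subgroup.normalizer ((P : Subgroup G) : Set G)

/-- The irreducible characters of `G` of degree prime to `p`. -/
def IrrP (p : ℕ) (G : Type) [Group G] : Type :=
  {χ : G → ℂ // IsIrr χ ∧ ∃ n : ℕ, χ 1 = n ∧ ¬ p ∣ n}

/-- There is a bijection from the irreducible characters of `G` of degree prime to `p` onto those of
the normaliser of `P` which commutes with the action of all field automorphisms in `K`. -/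
def Equivariant {p : ℕ} {G : Type} [Group G] (K : Set (ℂ ≃+* ℂ)) (P : Sylow p G) : Prop :=
  ∃ f : IrrP p G ≃ IrrP p (Nor P), ∀ σ ∈ K, ∀ χ ψ : IrrP p G,
    (∀ g, ψ.1 g = σ (χ.1 g)) → ∀ g, (f ψ).1 g = σ ((f χ).1 g)

/-- The field automorphisms `σ` for which there is an integer `e ≥ 0` with `σ(ξ) = ξ ^ (p ^ e)` for
all roots of unity `ξ` of order prime to `p`. -/
def NavarroSet (p : ℕ) : Set (ℂ ≃+* ℂ) :=
  {σ | ∃ e : ℕ, ∀ (n : ℕ) (ξ : ℂ), ¬ p ∣ n → ξ ^ n = 1 → σ ξ = ξ ^ p ^ e}

/-- The Galois conjugates of a complex function. -/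
def conjugates {G : Type} (χ : G → ℂ) : Set (G → ℂ) :=
  {ψ | ∃ σ : ℂ ≃+* ℂ, ψ = fun g => σ (χ g)}

/-- The number of irreducible characters `χ` of `G` of degree prime to `p` which are fixed by all
`σ ∈ S` and for which the number of Galois conjugates, that is, the degree of the field of values,
is not divisible by `ℓ`. -/
def num (p ℓ : ℕ) (S : Set (ℂ ≃+* ℂ)) (G : Type) [Group G] : ℕ :=
  Nat.card {χ : G → ℂ // IsIrr χ ∧ ((∃ n : ℕ, χ 1 = n ∧ ¬ p ∣ n) ∧
    ∀ σ ∈ S, (fun g => σ (χ g)) = χ) ∧ ¬ ℓ ∣ Nat.card (conjugates χ)}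

/-- For all `j` with `ℓ ^ j ≤ |G|`, all subgroups `S` of `K` and all Sylow `p`-subgroups `Q` of the
iterated wreath product `W = (⋯(G ≀ C_ℓ) ≀ ⋯) ≀ C_ℓ` with `j` factors `C_ℓ`, the numbers of
characters for `W` and for the normaliser of `Q` are congruent modulo `ℓ`. -/
def TowerCongruent (p ℓ : ℕ) [Fact ℓ.Prime] (K : Subgroup (ℂ ≃+* ℂ)) (G : Type) [Group G] :
    Prop :=
  ∀ j : ℕ, ℓ ^ j ≤ Nat.card G → ∀ (Q : Sylow p (WN ℓ j G)) (S : Subgroup (ℂ ≃+* ℂ)), S ≤ K →
    num p ℓ S (WN ℓ j G) ≡ num p ℓ S (Nor Q) [MOD ℓ]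

/-- Let `p` and `ℓ` be different primes, `G` a finite group and `P` a Sylow `p`-subgroup of `G`.
(1) Let `K` be a group of field automorphisms such that every `σ ∈ K` acts on the `|G|`-th roots of
unity with order prime to `ℓ`. Then there is a `K`-equivariant bijection as in Q1 for `G` and `P` if
and only if `TowerCongruent p ℓ K G` holds. (2) If `ℓ` does not divide `φ(|G|)`, then Q1 is true for
`G` and `P` if and only if `TowerCongruent p ℓ K G` holds for the group `K` generated by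
`NavarroSet p`. -/
theorem result (p ℓ : ℕ) [Fact p.Prime] [Fact ℓ.Prime] (hne : ℓ ≠ p) (G : Type) [Group G]
    [Finite G] (P : Sylow p G) :
    (∀ K : Subgroup (ℂ ≃+* ℂ),
      (∀ σ ∈ K, ∃ m : ℕ, ¬ ℓ ∣ m ∧ ∀ z : ℂ, z ^ Nat.card G = 1 → (σ ^ m) z = z) →
      (Equivariant K P ↔ TowerCongruent p ℓ K G)) ∧
    (¬ ℓ ∣ (Nat.card G).totient → (Equivariant (NavarroSet p) P ↔
      TowerCongruent p ℓ (Subgroup.closure (NavarroSet p)) G)) := by
  have key : ∀ T : Set (ℂ ≃+* ℂ), Equivariant T P ↔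
      ∃ f : Pool.Agent.H922IN.IrrP p G ≃ Pool.Agent.H922IN.IrrP p (Pool.Agent.H922IN.nrm P),
        ∀ σ ∈ T, ∀ χ, f (σ • χ) = σ • f χ := by
    intro T
    constructor
    · rintro ⟨f, hf⟩
      exact ⟨f, fun σ hσ χ => Subtype.ext (funext (hf σ hσ χ (Pool.Agent.H922IN.act σ χ)
        fun _ => rfl))⟩
    · rintro ⟨f, hf⟩
      refine ⟨f, fun σ hσ χ ψ h g => ?_⟩
      have h1 : ψ = Pool.Agent.H922IN.act σ χ := Subtype.ext (funext h)
      have h2 := hf σ hσ χ
      rw [h1]
      exact congrFun (congrArg Subtype.val h2) g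
  constructor
  · intro K hK
    rw [key]
    exact Pool.Agent.H922IN.gal_single hne.symm G P K hK
  · intro h
    rw [key, Pool.Agent.H922IN.eqB_closure]
    exact Pool.Agent.H922IN.gal_single hne.symm G P _ fun σ _ =>
      ⟨(Nat.card G).totient, h, fun z hz => Pool.Agent.H922IN.pow_totient Nat.card_pos σ z hz⟩

end Pool.Agent.Results.MP_1ae3da_al.TowerCongruences
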